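import Pool.Agent.helper53.PV.SpecF

/-!
# pvf:FDE  functions which are constant on the fibres descend
-/

set_option autoImplicit false

open scoped Topology
open MeasureTheory Filter

namespace Pool.Agent.PV

open Pool.Agent.CZ

/-- Functions on the extension which are constant on the fibres come from the base. -/
theorem FDE (hFCL : FCL_stmt) (hFID : FID_stmt) (hFFB : FFB_stmt) : FDE_stmt := by
  intro X₀ Y _ _ _ _ _ _ α₀ x₀ f hf hper T _ g hg
  have hcl : IsClosed (ESet α₀ x₀ f) := hFCL X₀ Y α₀ x₀ f hf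
  have hcomp : CompactSpace (ESp α₀ x₀ f) := isCompact_iff_compactSpace.mp hcl.isCompact
  obtain ⟨h1, -⟩ := hFID X₀ Y α₀ x₀ f
  obtain ⟨h2, h3⟩ := hFFB X₀ Y α₀ x₀ f
  have hsurj : Function.Surjective (ePr α₀ x₀ f) := fun x => ⟨_, h1 x⟩
  have hq : Topology.IsQuotientMap (ePr α₀ x₀ f) :=
    Topology.IsQuotientMap.of_surjective_continuous hsurj (ePr α₀ x₀ f).continuous
  have hconst : ∀ p q, ePr α₀ x₀ f p = ePr α₀ x₀ f q → g p = g q := by
    intro p q hpq
    by_cases h : ∀ k : ℤ, (α₀ ^ k) (ePr α₀ x₀ f p) ≠ x₀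
    · have e1 := h2 p h
      have e2 := h2 q (by rw [← hpq]; exact h)
      rw [e1, e2, hpq]
    · push Not at h
      obtain ⟨k, hk⟩ := h
      have e1 := h3 hper p k hk
      have e2 := h3 hper q k (by rw [← hpq]; exact hk)
      rw [e1, e2]
      exact hg k _ _
  refine ⟨hq.lift g (fun p q h => hconst p q h), fun p => ?_⟩
  have h := hq.lift_comp g (fun p q h => hconst p q h)
  exact (congrArg (fun φ : C(ESp α₀ x₀ f, T) => φ p) h).symm

end Pool.Agent.PV
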