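import Pool.Agent.helper77.PV.SpecB

/-!
# pv:LFA  linearisation of a polynomial matrix
-/

set_option autoImplicit false

open scoped Matrix Topology
open Filter

namespace Pool.Agent.PV

open Pool.Agent.CZ

section

theorem LFA_uM {A : Type} [NormedRing A] {κ : Type} [Fintype κ] [DecidableEq κ] (u : Aˣ) (M : Matrix κ κ A) (p q : κ) :
    (M * (uM κ u : Matrix κ κ A)) p q = M p q * u := by
  change (M * Matrix.scalar κ (u : A)) p q = _
  rw [Matrix.scalar_apply, Matrix.mul_diagonal]

variable {B A : Type} [NormedRing B] [NormedAlgebra ℂ B] [NormedRing A] [NormedAlgebra ℂ A]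

theorem LFA_pX_zero {ι : Type} [Fintype ι] [DecidableEq ι] (io : B →ₐ[ℂ] A) (u : Aˣ)
    (x : ℕ → Matrix ι ι B) : pX io u x 0 = (x 0).map io := by
  unfold pX
  simp

theorem LFA_pX_succ {ι : Type} [Fintype ι] [DecidableEq ι] (io : B →ₐ[ℂ] A) (u : Aˣ)
    (x : ℕ → Matrix ι ι B) (n : ℕ) :
    pX io u x (n + 1) = (x 0).map io +
      pX io u (fun k => x (k + 1)) n * (uM ι u : Matrix ι ι A) := by
  unfold pX
  rw [Finset.sum_range_succ', Finset.sum_mul, add_comm]
  congr 1
  · simp
  · refine Finset.sum_congr rfl fun k _ => ?_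
    rw [mul_assoc, pow_succ, Units.val_mul]

/-- the nilpotent matrix with `u` below the diagonal -/
def LFA_N (m : ℕ) (ι : Type) [DecidableEq ι] (u : Aˣ) :
    Matrix (Fin (m + 1) × ι) (Fin (m + 1) × ι) A :=
  Matrix.of fun p q => if q.1.val + 1 = p.1.val ∧ p.2 = q.2 then (u : A) else 0

omit [NormedAlgebra ℂ A] in
theorem LFA_pow (m : ℕ) (ι : Type) [Fintype ι] [DecidableEq ι] (u : Aˣ) (k : ℕ) :
    ∀ p q : Fin (m + 1) × ι, p.1.val < q.1.val + k → (LFA_N m ι u ^ k) p q = 0 := by
  induction k with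
  | zero =>
    intro p q h
    rw [pow_zero]
    refine Matrix.one_apply_ne ?_
    rintro rfl
    omega
  | succ k ih =>
    intro p q h
    rw [pow_succ, Matrix.mul_apply]
    refine Finset.sum_eq_zero fun r _ => ?_
    by_cases hr : q.1.val + 1 = r.1.val ∧ r.2 = q.2
    · rw [ih p r (by omega), zero_mul]
    · have : LFA_N m ι u r q = 0 := if_neg hr
      rw [this, mul_zero]

omit [NormedAlgebra ℂ A] in
theorem LFA_nil (m : ℕ) (ι : Type) [Fintype ι] [DecidableEq ι] (u : Aˣ) :
    IsNilpotent (LFA_N m ι u) := by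
  refine ⟨m + 1, ?_⟩
  ext p q
  rw [LFA_pow m ι u (m + 1) p q (by have := p.1.isLt; omega)]
  rfl

/-- `1 - N` is joined to `1` -/
theorem LFA_htp (m : ℕ) (ι : Type) [Fintype ι] [DecidableEq ι] (u : Aˣ)
    (V : (Matrix (Fin (m + 1) × ι) (Fin (m + 1) × ι) A)ˣ)
    (hV : (V : Matrix (Fin (m + 1) × ι) (Fin (m + 1) × ι) A) = 1 - LFA_N m ι u) : Htp V 1 := by
  refine ⟨⟨fun t => 1 - ((1 - (t : ℝ) : ℝ) : ℂ) • LFA_N m ι u, ?_⟩, ?_, ?_, ?_⟩
  · have h1 : Continuous fun t : unitInterval => ((1 - (t : ℝ) : ℝ) : ℂ) :=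
      Complex.continuous_ofReal.comp (continuous_const.sub continuous_subtype_val)
    exact continuous_const.sub (h1.smul continuous_const)
  · intro t
    exact ((LFA_nil m ι u).smul _).isUnit_one_sub
  · change 1 - ((1 - ((0 : unitInterval) : ℝ) : ℝ) : ℂ) • LFA_N m ι u = _
    rw [hV]
    simp
  · change 1 - ((1 - ((1 : unitInterval) : ℝ) : ℝ) : ℂ) • LFA_N m ι u = _
    simp

/-- the unit `[[X, b], [0, 1]]` -/
def LFA_K {ι κ : Type} [Fintype ι] [DecidableEq ι] [Fintype κ] [DecidableEq κ]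
    (X : (Matrix ι ι A)ˣ) (b : Matrix ι κ A) : (Matrix (ι ⊕ κ) (ι ⊕ κ) A)ˣ where
  val := Matrix.fromBlocks (X : Matrix ι ι A) b 0 1
  inv := Matrix.fromBlocks ((X⁻¹ : (Matrix ι ι A)ˣ) : Matrix ι ι A)
    (-(((X⁻¹ : (Matrix ι ι A)ˣ) : Matrix ι ι A) * b)) 0 1
  val_inv := by
    rw [Matrix.fromBlocks_multiply]
    simp only [Units.mul_inv, Matrix.mul_zero, add_zero, Matrix.zero_mul, zero_add,
      Matrix.mul_one, Matrix.mul_neg, ← Matrix.mul_assoc, Matrix.one_mul, neg_add_cancel,
      Matrix.fromBlocks_one, neg_zero]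
  inv_val := by
    rw [Matrix.fromBlocks_multiply]
    simp only [Units.inv_mul, Matrix.mul_zero, add_zero, Matrix.zero_mul, zero_add,
      Matrix.mul_one, add_neg_cancel, Matrix.fromBlocks_one]

/-- first block and the other blocks -/
def LFA_f (m : ℕ) (ι : Type) : Fin (m + 1) × ι ≃ ι ⊕ (Fin m × ι) where
  toFun p := Fin.cases (motive := fun _ => ι ⊕ (Fin m × ι)) (Sum.inl p.2)
    (fun i => Sum.inr (i, p.2)) p.1
  invFun := Sum.elim (fun s => (0, s)) (fun q => (q.1.succ, q.2))
  left_inv := by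
    rintro ⟨i, s⟩
    refine Fin.cases ?_ (fun i => ?_) i
    · rfl
    · rfl
  right_inv := by
    rintro (s | ⟨i, s⟩)
    · rfl
    · rfl

omit [NormedAlgebra ℂ A] in
theorem LFA_mulN (m : ℕ) (ι : Type) [Fintype ι] [DecidableEq ι] (u : Aˣ)
    (Y : Matrix (Fin (m + 1) × ι) (Fin (m + 1) × ι) A) (p : Fin (m + 1) × ι) (j : Fin (m + 1))
    (t : ι) : (Y * LFA_N m ι u) p (j, t) =
      if h : j.val + 1 < m + 1 then Y p (⟨j.val + 1, h⟩, t) * u else 0 := by
  rw [Matrix.mul_apply]
  split_ifs with h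
  · rw [Finset.sum_eq_single (⟨j.val + 1, h⟩, t)]
    · have : LFA_N m ι u (⟨j.val + 1, h⟩, t) (j, t) = (u : A) := if_pos ⟨rfl, rfl⟩
      rw [this]
    · intro r _ hr
      have : LFA_N m ι u r (j, t) = 0 := by
        refine if_neg ?_
        rintro ⟨h1, h2⟩
        apply hr
        refine Prod.ext (Fin.ext h1.symm) h2
      rw [this, mul_zero]
    · intro h'
      exact absurd (Finset.mem_univ _) h'
  · refine Finset.sum_eq_zero fun r _ => ?_
    have : LFA_N m ι u r (j, t) = 0 := by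
      refine if_neg ?_
      rintro ⟨h1, -⟩
      have := r.1.isLt
      have h3 : j.val + 1 = r.1.val := h1
      omega
    rw [this, mul_zero]

end

/-- Linearisation. -/
theorem LFA (hK1M : K1M_stmt) (hK1T : K1T_stmt) (hK1R : K1R_stmt) : LFA_stmt := by
  intro B A _ _ _ _ _ _ al io u c _ ι _ _ d x X hd hX
  obtain ⟨m, rfl⟩ : ∃ m, d = m + 1 := ⟨d - 1, by omega⟩
  obtain ⟨y, hy⟩ : ∃ y : ℕ → Matrix ι ι A,
      y = fun j => pX io u (fun k => x (j + k)) (m + 1 - j) := ⟨_, rfl⟩
  have hy0 : y 0 = (X : Matrix ι ι A) := by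
    rw [hX, hy]
    simp
  have hys : ∀ j, j < m → y j = (x j).map io + y (j + 1) * (uM ι u : Matrix ι ι A) := by
    intro j hj
    rw [hy]
    simp only
    have e : m + 1 - j = (m + 1 - (j + 1)) + 1 := by omega
    rw [e, LFA_pX_succ]
    have e2 : (fun k => x (j + (k + 1))) = fun k => x (j + 1 + k) := by
      funext k
      congr 1
      omega
    rw [e2, Nat.add_zero]
  have hym : y m = (x m).map io + (x (m + 1)).map io * (uM ι u : Matrix ι ι A) := by
    rw [hy]
    simp only
    have e : m + 1 - m = 0 + 1 := by omega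
    rw [e, LFA_pX_succ, LFA_pX_zero]
    rfl
  obtain ⟨b, hb⟩ : ∃ b : Matrix ι (Fin m × ι) A,
      b = Matrix.of fun s q => y (q.1.val + 1) s q.2 := ⟨_, rfl⟩
  obtain ⟨Y, hY⟩ : ∃ Y : (Matrix (Fin (m + 1) × ι) (Fin (m + 1) × ι) A)ˣ,
      Y = rix (LFA_f m ι).symm (LFA_K X b) := ⟨_, rfl⟩
  obtain ⟨V, hV⟩ : ∃ V : (Matrix (Fin (m + 1) × ι) (Fin (m + 1) × ι) A)ˣ,
      (V : Matrix (Fin (m + 1) × ι) (Fin (m + 1) × ι) A) = 1 - LFA_N m ι u :=
    (LFA_nil m ι u).isUnit_one_sub
  have hYapp : ∀ p q, (Y : Matrix (Fin (m + 1) × ι) (Fin (m + 1) × ι) A) p q =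
      Matrix.fromBlocks (X : Matrix ι ι A) b 0 1 (LFA_f m ι p) (LFA_f m ι q) := by
    intro p q
    rw [hY]
    rfl
  have hY0 : ∀ (s : ι) (j : Fin (m + 1)) (t : ι),
      (Y : Matrix (Fin (m + 1) × ι) (Fin (m + 1) × ι) A) (0, s) (j, t) = y j.val s t := by
    intro s j t
    rw [hYapp]
    refine Fin.cases ?_ (fun j => ?_) j
    · change (X : Matrix ι ι A) s t = y 0 s t
      rw [hy0]
    · change b s (j, t) = y j.succ.val s t
      rw [hb, Fin.val_succ]
      rfl
  have hY1 : ∀ (i : Fin m) (s : ι) (q : Fin (m + 1) × ι),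
      (Y : Matrix (Fin (m + 1) × ι) (Fin (m + 1) × ι) A) (i.succ, s) q =
        if (i.succ, s) = q then 1 else 0 := by
    rintro i s ⟨j, t⟩
    rw [hYapp]
    refine Fin.cases ?_ (fun j => ?_) j
    · change (0 : A) = _
      rw [if_neg]
      intro h
      have := congrArg Prod.fst h
      exact Fin.succ_ne_zero i this
    · change (1 : Matrix (Fin m × ι) (Fin m × ι) A) (i, s) (j, t) = _
      rw [Matrix.one_apply]
      have : ((i, s) = (j, t)) ↔ (((i.succ, s) : Fin (m + 1) × ι) = (j.succ, t)) := by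
        simp [Prod.ext_iff, Fin.succ_inj]
      by_cases h : (i, s) = (j, t)
      · rw [if_pos h, if_pos (this.1 h)]
      · rw [if_neg h, if_neg (fun h' => h (this.2 h'))]
  refine ⟨Y * V, ?_, ?_⟩
  · unfold IsLin
    rw [Units.val_mul, hV, mul_sub, mul_one]
    ext ⟨i, s⟩ ⟨j, t⟩
    rw [Matrix.sub_apply, LFA_mulN, Matrix.add_apply, LFA_uM, Matrix.map_apply, Matrix.map_apply]
    refine Fin.cases ?_ (fun i => ?_) i
    · have ha : aL (m + 1) x (0, s) (j, t) = x j.val s t := by
        unfold aL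
        rw [Matrix.of_apply]
        exact if_pos rfl
      have hbL : bL (m + 1) x (0, s) (j, t) =
          if j.val + 1 = m + 1 then x (m + 1) s t else 0 := by
        unfold bL
        rw [Matrix.of_apply]
        exact if_pos rfl
      rw [ha, hbL, hY0]
      split_ifs with h1 h2 h2
      · omega
      · rw [hY0, hys j.val (by omega), Matrix.add_apply, LFA_uM, Matrix.map_apply, map_zero,
          zero_mul, add_zero, add_sub_cancel_right]
      · have hj : j.val = m := by omega
        rw [hj, hym, Matrix.add_apply, LFA_uM, Matrix.map_apply, Matrix.map_apply, sub_zero]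
      · have := j.isLt
        omega
    · have ha : aL (m + 1) x (i.succ, s) (j, t) =
          if (i.succ, s) = (j, t) then (1 : B) else 0 := by
        unfold aL
        rw [Matrix.of_apply]
        refine if_neg ?_
        change ¬ (i.succ.val = 0)
        rw [Fin.val_succ]
        omega
      have hbL : bL (m + 1) x (i.succ, s) (j, t) =
          if j.val + 1 = i.succ.val ∧ s = t then (-1 : B) else 0 := by
        unfold bL
        rw [Matrix.of_apply]
        refine if_neg ?_
        change ¬ (i.succ.val = 0)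
        rw [Fin.val_succ]
        omega
      rw [ha, hbL, hY1]
      have e1 : io (if (i.succ, s) = (j, t) then (1 : B) else 0) =
          if (i.succ, s) = (j, t) then (1 : A) else 0 := by
        split_ifs
        · exact map_one io
        · exact map_zero io
      rw [e1, sub_eq_add_neg]
      congr 1
      by_cases h : j.val + 1 = i.succ.val ∧ s = t
      · have h1 : j.val + 1 < m + 1 := by
          have := i.succ.isLt
          omega
        rw [if_pos h, dif_pos h1, hY1, if_pos, map_neg, map_one]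
        · rw [neg_mul]
        · exact Prod.ext (Fin.ext h.1.symm) h.2
      · rw [if_neg h, map_zero, zero_mul]
        split_ifs with h1
        · rw [hY1, if_neg, zero_mul, neg_zero]
          intro h2
          apply h
          have h3 := congrArg Prod.fst h2
          have h4 := congrArg Prod.snd h2
          refine ⟨?_, h4⟩
          have := congrArg Fin.val h3
          exact this.symm
        · exact neg_zero
  · obtain ⟨h1, -, -, -⟩ := hK1M A (Fin (m + 1) × ι) Y V
    obtain ⟨-, -, h2, h3⟩ := hK1M A (Fin (m + 1) × ι) V 1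
    obtain ⟨-, -, h4, -⟩ := hK1M A (Fin m × ι) 1 1
    rw [h1, h3 (LFA_htp m ι u V hV), h2, add_zero, hY, hK1R,
      hK1T.1 A ι (Fin m × ι) X 1 b (LFA_K X b) rfl, h4, add_zero]

end Pool.Agent.PV
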