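import Pool.Agent.helper45.PV.SpecG

/-!
# pvg:SCP  a path of invertible complex matrices ending at 1 has class 0 in K1 of the mapping cone
-/

set_option autoImplicit false

open scoped Matrix Topology
open Filter

namespace Pool.Agent.PV

open Pool.Agent.CZ

/-- the parameter `1 - (1-s)(1-t)` -/
def SCP_s (t s : unitInterval) : unitInterval :=
  unitInterval.symm (unitInterval.symm s * unitInterval.symm t)

theorem SCP_cont : Continuous fun p : unitInterval × unitInterval => SCP_s p.1 p.2 := by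
  unfold SCP_s
  exact unitInterval.continuous_symm.comp
    ((unitInterval.continuous_symm.comp continuous_snd).mul
      (unitInterval.continuous_symm.comp continuous_fst))

theorem SCP_t0 (t : unitInterval) : SCP_s t 0 = t := by
  unfold SCP_s
  rw [unitInterval.symm_zero, one_mul, unitInterval.symm_symm]

theorem SCP_t1 (t : unitInterval) : SCP_s t 1 = 1 := by
  unfold SCP_s
  rw [unitInterval.symm_one, zero_mul, unitInterval.symm_zero]

theorem SCP_0s (s : unitInterval) : SCP_s 0 s = s := by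
  unfold SCP_s
  rw [unitInterval.symm_zero, mul_one, unitInterval.symm_symm]

theorem SCP_1s (s : unitInterval) : SCP_s 1 s = 1 := by
  unfold SCP_s
  rw [unitInterval.symm_one, mul_zero, unitInterval.symm_zero]

/-- A path of invertible complex matrices ending at 1 has class 0. -/
theorem SCP (hCIN : CIN_stmt) (hK1M : K1M_stmt) : SCP_stmt := by
  intro C D _ _ _ _ φ ι _ _ y hy hy1 X hX hXg
  obtain ⟨y', hy'⟩ := hCIN ℂ unitInterval ι y hy
  have hm : ∀ A B : Matrix ι ι ℂ, (A * B).map (algebraMap ℂ D) =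
      A.map (algebraMap ℂ D) * B.map (algebraMap ℂ D) := fun A B =>
    Matrix.map_mul
  have hone : (1 : Matrix ι ι ℂ).map (algebraMap ℂ D) = 1 := map_one (algebraMap ℂ D).mapMatrix
  have honeφ : (1 : Matrix ι ι C).map φ = 1 := map_one φ.toRingHom.mapMatrix
  have m1 : ∀ s, (1 : Matrix ι ι (MC φ)).map (pM φ s) = 1 := fun s =>
    map_one (pM φ s).toRingHom.mapMatrix
  have m2 : (1 : Matrix ι ι (MC φ)).map (gM φ) = 1 := map_one (gM φ).toRingHom.mapMatrix
  -- the surface
  obtain ⟨H, hH⟩ : ∃ H : C(unitInterval × unitInterval, Matrix ι ι D),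
      ∀ t s, H (t, s) = (y (SCP_s t s)).map (algebraMap ℂ D) :=
    ⟨⟨fun p => (y (SCP_s p.1 p.2)).map (algebraMap ℂ D),
      (y.continuous.comp SCP_cont).matrix_map (continuous_algebraMap ℂ D)⟩, fun t s => rfl⟩
  obtain ⟨Γ, hΓ, hΓg⟩ := exPM φ H (ContinuousMap.const _ 1) (fun t => y t)
    (fun t => by rw [hH, SCP_t0]) (fun t => by
      rw [hH, SCP_t1, hy1, hone]
      exact honeφ.symm)
  have hΓg1 : ∀ t, (Γ t).map (gM φ) = 1 := fun t => hΓg t
  have hunit : ∀ t, IsUnit (Γ t) := by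
    intro t
    obtain ⟨h, hh⟩ : ∃ h : C(unitInterval, Matrix ι ι D),
        ∀ s, h s = (y (SCP_s t s)).map (algebraMap ℂ D) :=
      ⟨⟨fun s => (y (SCP_s t s)).map (algebraMap ℂ D),
        (y.continuous.comp (SCP_cont.comp (Continuous.prodMk continuous_const continuous_id))).matrix_map
          (continuous_algebraMap ℂ D)⟩, fun s => rfl⟩
    obtain ⟨h', hh'⟩ : ∃ h' : C(unitInterval, Matrix ι ι D),
        ∀ s, h' s = (y' (SCP_s t s)).map (algebraMap ℂ D) :=
      ⟨⟨fun s => (y' (SCP_s t s)).map (algebraMap ℂ D),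
        (y'.continuous.comp (SCP_cont.comp (Continuous.prodMk continuous_const continuous_id))).matrix_map
          (continuous_algebraMap ℂ D)⟩, fun s => rfl⟩
    obtain ⟨U, hU⟩ := hy t
    obtain ⟨Z, hZ, -, hZg, -⟩ := unM φ h h' (1 : (Matrix ι ι C)ˣ) U
      (fun s => by rw [hh, hh', ← hm, (hy' _).1, hone])
      (fun s => by rw [hh, hh', ← hm, (hy' _).2, hone])
      (by rw [hh, SCP_t0, hU])
      (by
        rw [hh, SCP_t1, hy1, hone]
        exact honeφ.symm)
    have hZΓ : (Z : Matrix ι ι (MC φ)) = Γ t := by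
      refine extM φ _ _ (fun s => ?_) ?_
      · rw [hZ, hh, hΓ, hH]
      · rw [hZg, hΓg1]
        rfl
    rw [← hZΓ]
    exact Z.isUnit
  have hΓ0 : Γ 0 = (X : Matrix ι ι (MC φ)) := by
    refine extM φ _ _ (fun s => ?_) ?_
    · rw [hΓ, hH, SCP_0s, hX]
    · rw [hΓg1, hXg]
  have hΓ1 : Γ 1 = ((1 : (Matrix ι ι (MC φ))ˣ) : Matrix ι ι (MC φ)) := by
    rw [Units.val_one]
    refine extM φ _ _ (fun s => ?_) ?_
    · rw [hΓ, hH, SCP_1s, hy1, hone, m1]
    · rw [hΓg1, m2]
  have hhtp : Htp X 1 := ⟨Γ, hunit, hΓ0, hΓ1⟩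
  obtain ⟨-, -, h0, h1⟩ := hK1M (MC φ) ι X 1
  rw [h1 hhtp, h0]

end Pool.Agent.PV
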